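import Mathlib

/-!
# The real closure versus the strong 2-closure of a permutation group

For a finite set `Ω` and a permutation group `G` on `Ω` we show that the `ℝ`-closure of `G`
equals the strong 2-closure of `G`, with exactly one (degenerate) exception: the trivial group
on a set with two elements.
-/

set_option autoImplicit false

namespace Pool.Agent.Results.MP_5a426c_al.RealClosure

variable {Ω : Type*}

/-- The linear extension to the permutation module `𝔽Ω` (the vector space with basis `Ω`,
here `Ω →₀ 𝔽`) of the permutation `σ` of the basis `Ω`. -/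
noncomputable def permMap (F : Type*) [Field F] (σ : Equiv.Perm Ω) :
    (Ω →₀ F) →ₗ[F] (Ω →₀ F) :=
  Finsupp.lmapDomain F F σ

/-- `W` is an `𝔽G`-submodule of the permutation module: it is mapped into itself by `G`. -/
def IsInvariant {F : Type*} [Field F] (G : Subgroup (Equiv.Perm Ω))
    (W : Submodule F (Ω →₀ F)) : Prop :=
  ∀ g ∈ G, W.map (permMap F g) ≤ W

/-- The `𝔽`-closure of `G`: all permutations of `Ω` whose linear extension maps every
`𝔽G`-submodule of `𝔽Ω` onto itself. -/
def fieldClosure (F : Type*) [Field F] (G : Subgroup (Equiv.Perm Ω)) : Set (Equiv.Perm Ω) :=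
  {σ | ∀ W : Submodule F (Ω →₀ F), IsInvariant G W → W.map (permMap F σ) = W}

/-- The `G`-orbit of the finite subset `s` of `Ω`. -/
def setOrbit (G : Subgroup (Equiv.Perm Ω)) (s : Finset Ω) : Set (Finset Ω) :=
  {t | ∃ g ∈ G, t = s.map g.toEmbedding}

/-- The strong 2-closure of `G`: all permutations of `Ω` which map each `G`-orbit on the set
of 2-element subsets of `Ω` onto itself. -/
def strongTwoClosure (G : Subgroup (Equiv.Perm Ω)) : Set (Equiv.Perm Ω) :=
  {σ | ∀ s : Finset Ω, s.card = 2 →
    (fun t : Finset Ω => t.map σ.toEmbedding) '' setOrbit G s = setOrbit G s}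

section Euclid

variable [Fintype Ω] [DecidableEq Ω]

/-- The permutation isometry of Euclidean space. -/
noncomputable abbrev U (σ : Equiv.Perm Ω) : EuclideanSpace ℝ Ω ≃ₗᵢ[ℝ] EuclideanSpace ℝ Ω :=
  LinearIsometryEquiv.piLpCongrLeft 2 ℝ ℝ σ

/-- The identification of the permutation module with Euclidean space. -/
noncomputable def eqv : (Ω →₀ ℝ) ≃ₗ[ℝ] EuclideanSpace ℝ Ω :=
  (Finsupp.linearEquivFunOnFinite ℝ ℝ Ω).trans (WithLp.linearEquiv 2 ℝ (Ω → ℝ)).symm

lemma eqv_single (a : Ω) (c : ℝ) :
    eqv (Finsupp.single a c) = EuclideanSpace.single a c := by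
  ext b
  simp [eqv, eq_comm]

lemma U_single (σ : Equiv.Perm Ω) (a : Ω) (c : ℝ) :
    U σ (EuclideanSpace.single a c) = EuclideanSpace.single (σ a) c := by
  simp

lemma eqv_permMap (σ : Equiv.Perm Ω) (v : Ω →₀ ℝ) :
    eqv (permMap ℝ σ v) = U σ (eqv v) := by
  induction v using Finsupp.induction_linear with
  | zero => simp
  | add f g hf hg => simp only [map_add, hf, hg]
  | single a c =>
    rw [permMap, Finsupp.lmapDomain_apply, Finsupp.mapDomain_single, eqv_single, eqv_single,
      U_single]

lemma map_eqv (σ : Equiv.Perm Ω) (W : Submodule ℝ (Ω →₀ ℝ)) :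
    (W.map (permMap ℝ σ)).map (eqv (Ω := Ω)).toLinearMap =
      (W.map (eqv (Ω := Ω)).toLinearMap).map (U σ).toLinearEquiv.toLinearMap := by
  ext v
  constructor
  · rintro ⟨_, ⟨w, hw, rfl⟩, rfl⟩
    exact ⟨eqv w, ⟨w, hw, rfl⟩, (eqv_permMap σ w).symm⟩
  · rintro ⟨_, ⟨w, hw, rfl⟩, rfl⟩
    exact ⟨permMap ℝ σ w, ⟨w, hw, rfl⟩, eqv_permMap σ w⟩

omit [DecidableEq Ω] in
lemma U_apply (σ : Equiv.Perm Ω) (v : EuclideanSpace ℝ Ω) (b : Ω) :
    (U σ v) b = v (σ.symm b) := by
  simp [LinearIsometryEquiv.piLpCongrLeft_apply, Equiv.piCongrLeft']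

/-- Two linear maps of Euclidean space agreeing on the standard basis agree. -/
lemma lin_ext {f g : EuclideanSpace ℝ Ω →ₗ[ℝ] EuclideanSpace ℝ Ω}
    (h : ∀ a : Ω, f (EuclideanSpace.single a 1) = g (EuclideanSpace.single a 1)) : f = g := by
  refine (EuclideanSpace.basisFun Ω ℝ).toBasis.ext fun a => ?_
  simpa using h a

/-- A matrix commutes with a permutation iff it is invariant under it. -/
lemma commute_iff (M : Matrix Ω Ω ℝ) (σ : Equiv.Perm Ω) :
    (∀ v, M.toEuclideanLin (U σ v) = U σ (M.toEuclideanLin v)) ↔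
      ∀ a b, M (σ a) (σ b) = M a b := by
  have key : ∀ a b, (M.toEuclideanLin (EuclideanSpace.single a (1 : ℝ))) b = M b a := by
    intro a b
    simp [Matrix.toLpLin_apply]
  constructor
  · intro h a b
    have h1 := h (EuclideanSpace.single b 1)
    rw [U_single] at h1
    have h2 := congrArg (fun w : EuclideanSpace ℝ Ω => w (σ a)) h1
    simp only [key, U_apply, Equiv.symm_apply_apply] at h2
    exact h2
  · intro h v
    have h3 : M.toEuclideanLin ∘ₗ (U σ).toLinearEquiv.toLinearMap =
        (U σ).toLinearEquiv.toLinearMap ∘ₗ M.toEuclideanLin := by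
      apply lin_ext
      intro a
      ext b
      simp only [LinearMap.comp_apply, LinearEquiv.coe_coe, LinearIsometryEquiv.coe_toLinearEquiv,
        U_single, key, U_apply]
      have := h (σ.symm b) a
      rwa [Equiv.apply_symm_apply] at this
    exact LinearMap.congr_fun h3 v

/-- A permutation in the real closure commutes with every symmetric operator commuting
with the group. -/
lemma commute_of_mem_fieldClosure {G : Subgroup (Equiv.Perm Ω)} {σ : Equiv.Perm Ω}
    (hσ : σ ∈ fieldClosure ℝ G) (T : EuclideanSpace ℝ Ω →ₗ[ℝ] EuclideanSpace ℝ Ω)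
    (hT : T.IsSymmetric) (hG : ∀ g ∈ G, ∀ v, T (U g v) = U g (T v)) (v : EuclideanSpace ℝ Ω) :
    T (U σ v) = U σ (T v) := by
  have hE : ∀ μ : ℝ, ∀ v ∈ Module.End.eigenspace T μ, T (U σ v) = U σ (T v) := by
    intro μ v hv
    let W : Submodule ℝ (Ω →₀ ℝ) :=
      (Module.End.eigenspace T μ).comap (eqv (Ω := Ω)).toLinearMap
    have hW : IsInvariant G W := by
      rintro g hg _ ⟨w, hw, rfl⟩
      have hw' : T (eqv w) = μ • eqv w := Module.End.mem_eigenspace_iff.mp hw
      change eqv (permMap ℝ g w) ∈ Module.End.eigenspace T μ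
      rw [Module.End.mem_eigenspace_iff, eqv_permMap, hG g hg, hw', map_smul]
    have hmem : permMap ℝ σ (eqv.symm v) ∈ W := by
      rw [← hσ W hW]
      refine ⟨eqv.symm v, ?_, rfl⟩
      change eqv (eqv.symm v) ∈ Module.End.eigenspace T μ
      simpa using hv
    have h2 : eqv (permMap ℝ σ (eqv.symm v)) ∈ Module.End.eigenspace T μ := hmem
    rw [eqv_permMap, LinearEquiv.apply_symm_apply, Module.End.mem_eigenspace_iff] at h2
    rw [h2, Module.End.mem_eigenspace_iff.mp hv, map_smul]
  have htop : (⨆ μ : ℝ, Module.End.eigenspace T μ) = ⊤ := by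
    have := hT.orthogonalComplement_iSup_eigenspaces_eq_bot
    rwa [Submodule.orthogonal_eq_bot_iff] at this
  have hle : (⨆ μ : ℝ, Module.End.eigenspace T μ) ≤
      LinearMap.eqLocus (T ∘ₗ (U σ).toLinearEquiv.toLinearMap)
        ((U σ).toLinearEquiv.toLinearMap ∘ₗ T) :=
    iSup_le fun μ v hv => hE μ v hv
  rw [htop] at hle
  exact hle (Submodule.mem_top (x := v))

/-- The matrix of the orthogonal projection onto a submodule. -/
noncomputable def projMat (W : Submodule ℝ (EuclideanSpace ℝ Ω)) : Matrix Ω Ω ℝ :=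
  Matrix.toEuclideanLin.symm (W.starProjection : EuclideanSpace ℝ Ω →ₗ[ℝ] EuclideanSpace ℝ Ω)

lemma toEuclideanLin_projMat (W : Submodule ℝ (EuclideanSpace ℝ Ω)) :
    (projMat W).toEuclideanLin =
      (W.starProjection : EuclideanSpace ℝ Ω →ₗ[ℝ] EuclideanSpace ℝ Ω) :=
  LinearEquiv.apply_symm_apply _ _

lemma projMat_symm (W : Submodule ℝ (EuclideanSpace ℝ Ω)) (a b : Ω) :
    projMat W a b = projMat W b a := by
  have h : (projMat W).IsHermitian := by
    rw [← Matrix.isSymmetric_toEuclideanLin_iff, toEuclideanLin_projMat]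
    exact W.starProjection_isSymmetric
  have := h.apply b a
  simpa using this

lemma projMat_invariant (W : Submodule ℝ (EuclideanSpace ℝ Ω)) (g : Equiv.Perm Ω)
    (hg : W.map (U g).toLinearEquiv.toLinearMap = W) (a b : Ω) :
    projMat W (g a) (g b) = projMat W a b := by
  revert a b
  rw [← commute_iff, toEuclideanLin_projMat]
  intro v
  have h := Submodule.starProjection_map_apply (U g) W (U g v)
  rw [LinearIsometryEquiv.symm_apply_apply] at h
  rw [show (W.starProjection : EuclideanSpace ℝ Ω →ₗ[ℝ] EuclideanSpace ℝ Ω) v =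
    W.starProjection v from rfl, ← h]
  change W.starProjection (U g v) = _
  congr 2
  exact hg.symm

/-- If a permutation leaves the projection matrix invariant, then it preserves the subspace. -/
lemma map_eq_of_projMat (W : Submodule ℝ (EuclideanSpace ℝ Ω)) (σ : Equiv.Perm Ω)
    (h : ∀ a b, projMat W (σ a) (σ b) = projMat W a b) :
    W.map (U σ).toLinearEquiv.toLinearMap = W := by
  rw [← commute_iff, toEuclideanLin_projMat] at h
  have h' : ∀ v, W.starProjection (U σ v) = U σ (W.starProjection v) := h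
  ext v
  constructor
  · rintro ⟨w, hw, rfl⟩
    change U σ w ∈ W
    rw [← Submodule.starProjection_eq_self_iff, h', Submodule.starProjection_eq_self_iff.mpr hw]
  · intro hv
    refine ⟨(U σ).symm v, ?_, (U σ).apply_symm_apply v⟩
    change (U σ).symm v ∈ W
    rw [← Submodule.starProjection_eq_self_iff]
    apply (U σ).injective
    rw [← h', LinearIsometryEquiv.apply_symm_apply, Submodule.starProjection_eq_self_iff.mpr hv]

end Euclid

section Combinatorics

/-- Two points lie in one `G`-orbit. -/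
def Rel (G : Subgroup (Equiv.Perm Ω)) (a b : Ω) : Prop := ∃ g ∈ G, g a = b

lemma Rel.refl (G : Subgroup (Equiv.Perm Ω)) (a : Ω) : Rel G a a := ⟨1, G.one_mem, rfl⟩

lemma Rel.symm {G : Subgroup (Equiv.Perm Ω)} {a b : Ω} (h : Rel G a b) : Rel G b a := by
  obtain ⟨g, hg, rfl⟩ := h
  exact ⟨g⁻¹, G.inv_mem hg, by simp⟩

lemma Rel.trans {G : Subgroup (Equiv.Perm Ω)} {a b c : Ω} (h : Rel G a b) (h' : Rel G b c) :
    Rel G a c := by
  obtain ⟨g, hg, rfl⟩ := h
  obtain ⟨k, hk, rfl⟩ := h'
  exact ⟨k * g, G.mul_mem hk hg, rfl⟩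

lemma self_mem_setOrbit (G : Subgroup (Equiv.Perm Ω)) (s : Finset Ω) : s ∈ setOrbit G s :=
  ⟨1, G.one_mem, by
    change s = s.map (Equiv.refl Ω).toEmbedding
    simp⟩

variable [DecidableEq Ω]

lemma pair_moves {G : Subgroup (Equiv.Perm Ω)} {σ : Equiv.Perm Ω}
    (hσ : σ ∈ strongTwoClosure G) {a b : Ω} (hab : a ≠ b) :
    ∃ g ∈ G, (g a = σ a ∧ g b = σ b) ∨ (g a = σ b ∧ g b = σ a) := by
  have hs : ({a, b} : Finset Ω).card = 2 := Finset.card_pair hab
  have h1 : ({a, b} : Finset Ω).map σ.toEmbedding ∈ setOrbit G ({a, b} : Finset Ω) := by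
    rw [← hσ _ hs]
    exact ⟨_, self_mem_setOrbit G _, rfl⟩
  obtain ⟨g, hg, hgs⟩ := h1
  refine ⟨g, hg, ?_⟩
  have h2 : g a ∈ ({a, b} : Finset Ω).map σ.toEmbedding := by
    rw [hgs]; simp
  have h3 : g b ∈ ({a, b} : Finset Ω).map σ.toEmbedding := by
    rw [hgs]; simp
  have h4 : g a ≠ g b := fun h => hab (g.injective h)
  simp only [Finset.mem_map_equiv, Finset.mem_insert, Finset.mem_singleton,
    Equiv.symm_apply_eq] at h2 h3
  rcases h2 with h2 | h2 <;> rcases h3 with h3 | h3
  · exact absurd (h2.trans h3.symm) h4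
  · exact Or.inl ⟨h2, h3⟩
  · exact Or.inr ⟨h2, h3⟩
  · exact absurd (h2.trans h3.symm) h4

omit [DecidableEq Ω] in
/-- Outside the degenerate case, a permutation in the strong 2-closure preserves the orbits
on points. -/
lemma point_moves {G : Subgroup (Equiv.Perm Ω)} {σ : Equiv.Perm Ω}
    (hσ : σ ∈ strongTwoClosure G) (hG : ¬ (Nat.card Ω = 2 ∧ G = ⊥)) (a : Ω) :
    Rel G a (σ a) := by
  classical
  by_contra hcon
  have key : ∀ b, b ≠ a → Rel G a (σ b) ∧ Rel G b (σ a) := by
    intro b hb
    obtain ⟨g, hg, h | h⟩ := pair_moves hσ hb.symm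
    · exact absurd ⟨g, hg, h.1⟩ hcon
    · exact ⟨⟨g, hg, h.1⟩, ⟨g, hg, h.2⟩⟩
  by_cases h2 : ∃ b c, b ≠ a ∧ c ≠ a ∧ b ≠ c
  · obtain ⟨b, c, hb, hc, hbc⟩ := h2
    obtain ⟨hb1, hb2⟩ := key b hb
    obtain ⟨hc1, hc2⟩ := key c hc
    obtain ⟨g, hg, h | h⟩ := pair_moves hσ hbc
    · have : Rel G b (σ b) := ⟨g, hg, h.1⟩
      exact hcon (hb1.trans (this.symm.trans hb2))
    · have : Rel G b (σ c) := ⟨g, hg, h.1⟩
      exact hcon (hc1.trans (this.symm.trans hb2))
  · push Not at h2
    by_cases h1 : ∃ b, b ≠ a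
    · obtain ⟨b, hb⟩ := h1
      have hall : ∀ c, c = a ∨ c = b := by
        intro c
        by_cases hc : c = a
        · exact Or.inl hc
        · exact Or.inr (h2 b c hb hc).symm
      have hcard : Nat.card Ω = 2 := by
        rw [Nat.card_eq_two_iff]
        refine ⟨a, b, hb.symm, ?_⟩
        ext c
        simpa using hall c
      have hne : G ≠ ⊥ := fun h => hG ⟨hcard, h⟩
      obtain ⟨⟨g, hg⟩, hg1'⟩ := Subgroup.ne_bot_iff_exists_ne_one.mp hne
      have hg1 : g ≠ 1 := fun h => hg1' (Subtype.ext h)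
      have hga : g a = b := by
        rcases hall (g a) with h | h
        · exfalso
          apply hg1
          ext c
          rcases hall c with hc | hc
          · subst hc
            simpa using h
          · subst hc
            rcases hall (g c) with h' | h'
            · exact absurd (g.injective (h'.trans h.symm)) hb
            · simpa using h'
        · exact h
      rcases hall (σ a) with h | h
      · rw [h] at hcon
        exact hcon (Rel.refl G a)
      · exact hcon ⟨g, hg, hga.trans h.symm⟩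
    · push Not at h1
      rw [h1 (σ a)] at hcon
      exact hcon (Rel.refl G a)

end Combinatorics

section Main

variable [Fintype Ω] [DecidableEq Ω]

lemma subset_strong (G : Subgroup (Equiv.Perm Ω)) :
    fieldClosure ℝ G ⊆ strongTwoClosure G := by
  intro σ hσ s hs
  -- the adjacency matrix of the orbit of `s`
  classical
  let M : Matrix Ω Ω ℝ := fun a b => if ({a, b} : Finset Ω) ∈ setOrbit G s then 1 else 0
  have hmem : ∀ (g : Equiv.Perm Ω), g ∈ G → ∀ t : Finset Ω,
      t.map g.toEmbedding ∈ setOrbit G s ↔ t ∈ setOrbit G s := by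
    intro g hg t
    constructor
    · rintro ⟨k, hk, hkt⟩
      refine ⟨g⁻¹ * k, G.mul_mem (G.inv_mem hg) hk, ?_⟩
      have := congrArg (fun u : Finset Ω => u.map (g⁻¹ : Equiv.Perm Ω).toEmbedding) hkt
      simp only [Finset.map_map] at this
      calc t = t.map (g.toEmbedding.trans (g⁻¹ : Equiv.Perm Ω).toEmbedding) := by
            ext x; simp
        _ = _ := this
        _ = _ := rfl
    · rintro ⟨k, hk, rfl⟩
      exact ⟨g * k, G.mul_mem hg hk, by rw [Finset.map_map]; rfl⟩
  have hpair : ∀ (g : Equiv.Perm Ω) (a b : Ω),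
      ({g a, g b} : Finset Ω) = ({a, b} : Finset Ω).map g.toEmbedding := by
    intro g a b
    ext x; simp
  have hsymm : M.toEuclideanLin.IsSymmetric := by
    rw [Matrix.isSymmetric_toEuclideanLin_iff]
    ext a b
    rw [Matrix.conjTranspose_apply, star_trivial]
    simp only [M, Finset.pair_comm b a]
  have hinv : ∀ g ∈ G, ∀ v, M.toEuclideanLin (U g v) = U g (M.toEuclideanLin v) := by
    intro g hg
    rw [commute_iff]
    intro a b
    simp only [M, hpair, hmem g hg]
  have hcomm := fun v => commute_of_mem_fieldClosure hσ _ hsymm hinv v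
  rw [commute_iff] at hcomm
  have hσ' : ∀ t : Finset Ω, t.card = 2 →
      (t.map σ.toEmbedding ∈ setOrbit G s ↔ t ∈ setOrbit G s) := by
    intro t ht
    obtain ⟨a, b, -, rfl⟩ := Finset.card_eq_two.mp ht
    have h := hcomm a b
    simp only [M, hpair] at h
    by_cases h1 : ({a, b} : Finset Ω) ∈ setOrbit G s <;>
      by_cases h2 : ({a, b} : Finset Ω).map σ.toEmbedding ∈ setOrbit G s <;>
      simp_all
  have hcard : ∀ t ∈ setOrbit G s, t.card = 2 := by
    rintro t ⟨g, -, rfl⟩
    rw [Finset.card_map, hs]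
  ext t
  constructor
  · rintro ⟨u, hu, rfl⟩
    exact (hσ' u (hcard u hu)).mpr hu
  · intro ht
    have ht' : (t.map (Equiv.symm σ).toEmbedding).map σ.toEmbedding = t := by
      ext x; simp
    refine ⟨t.map (Equiv.symm σ).toEmbedding, ?_, ht'⟩
    rw [← hσ' _ (by rw [Finset.card_map, hcard t ht]), ht']
    exact ht

lemma strong_subset (G : Subgroup (Equiv.Perm Ω)) (hG : ¬ (Nat.card Ω = 2 ∧ G = ⊥)) :
    strongTwoClosure G ⊆ fieldClosure ℝ G := by
  intro σ hσ W hW
  -- the image of `W` in Euclidean space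
  have hinj : Function.Injective (Submodule.map (eqv (Ω := Ω)).toLinearMap) :=
    Submodule.map_injective_of_injective (eqv (Ω := Ω)).injective
  have hWeq : ∀ g ∈ G, W.map (permMap ℝ g) = W := by
    intro g hg
    apply le_antisymm (hW g hg)
    intro w hw
    refine ⟨permMap ℝ g⁻¹ w, hW _ (G.inv_mem hg) ⟨w, hw, rfl⟩, ?_⟩
    have : (permMap ℝ g ∘ₗ permMap ℝ g⁻¹) w = w := by
      rw [permMap, permMap, ← Finsupp.lmapDomain_comp, show (⇑g ∘ ⇑g⁻¹ : Ω → Ω) = id from by
        ext x; simp]
      simp
    exact this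
  let W' := W.map (eqv (Ω := Ω)).toLinearMap
  have hinv : ∀ g ∈ G, ∀ a b, projMat W' (g a) (g b) = projMat W' a b := by
    intro g hg
    apply projMat_invariant
    rw [← map_eqv, hWeq g hg]
  have hσinv : ∀ a b, projMat W' (σ a) (σ b) = projMat W' a b := by
    intro a b
    by_cases hab : a = b
    · subst hab
      obtain ⟨g, hg, hga⟩ := point_moves hσ hG a
      rw [← hga, hinv g hg]
    · obtain ⟨g, hg, h | h⟩ := pair_moves hσ hab
      · rw [← h.1, ← h.2, hinv g hg]
      · rw [← h.1, ← h.2, projMat_symm, hinv g hg]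
  have := map_eq_of_projMat W' σ hσinv
  rw [← map_eqv] at this
  exact hinj this

end Main

/-- **The real closure versus the strong 2-closure.** For every permutation group `G` on a
finite set `Ω`, the `ℝ`-closure of `G` equals the strong 2-closure of `G`, unless `|Ω| = 2` and
`G` is trivial; in this exceptional case the two closures are different. -/
theorem result {Ω : Type*} [Finite Ω] (G : Subgroup (Equiv.Perm Ω)) :
    fieldClosure ℝ G = strongTwoClosure G ↔ ¬ (Nat.card Ω = 2 ∧ G = ⊥) := by
  classical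
  cases nonempty_fintype Ω
  constructor
  · rintro h ⟨hcard, rfl⟩
    obtain ⟨a, b, hab, huniv⟩ := Nat.card_eq_two_iff.mp hcard
    have hall : ∀ c, c = a ∨ c = b := fun c => by
      have : c ∈ ({a, b} : Set Ω) := huniv ▸ Set.mem_univ c
      simpa using this
    have hs : Equiv.swap a b ∈ strongTwoClosure (⊥ : Subgroup (Equiv.Perm Ω)) := by
      intro s hs
      have hsu : s = {a, b} := by
        apply Finset.eq_of_subset_of_card_le
        · intro c _
          simpa using hall c
        · rw [hs, Finset.card_pair hab]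
      have horb : setOrbit (⊥ : Subgroup (Equiv.Perm Ω)) s = {s} := by
        ext t
        constructor
        · rintro ⟨g, hg, rfl⟩
          rw [Subgroup.mem_bot] at hg
          subst hg
          change s.map (Equiv.refl Ω).toEmbedding = s
          simp
        · rintro rfl
          exact self_mem_setOrbit _ _
      rw [horb, Set.image_singleton]
      congr 1
      rw [hsu]
      ext c
      simp only [Finset.mem_map_equiv, Equiv.symm_swap, Finset.mem_insert, Finset.mem_singleton]
      rcases hall c with rfl | rfl <;> simp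
    rw [← h] at hs
    have h1 := hs (Submodule.span ℝ {Finsupp.single a 1}) (by
      intro g hg
      rw [Subgroup.mem_bot] at hg
      subst hg
      rw [Submodule.map_span]
      simp [permMap])
    rw [Submodule.map_span] at h1
    have h2 : Finsupp.single b (1 : ℝ) ∈ Submodule.span ℝ {Finsupp.single a (1 : ℝ)} := by
      rw [← h1]
      apply Submodule.subset_span
      refine ⟨Finsupp.single a 1, rfl, ?_⟩
      simp [permMap]
    rw [Submodule.mem_span_singleton] at h2
    obtain ⟨c, hc⟩ := h2
    have h3 := DFunLike.congr_fun hc b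
    simp [hab] at h3
  · intro hG
    exact Set.Subset.antisymm (subset_strong G) (strong_subset G hG)

end Pool.Agent.Results.MP_5a426c_al.RealClosure
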